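import Pool.Agent.Q91.VR.Class
import Pool.Agent.Q91.PP.Over
import Pool.Agent.W644.HK.Char0Main

/-!
# The Dennis trace `K_n(K[G]) → HH_n(K[G])`, `n ≥ 1`, for groups of automorphisms of algebras and of
# linear groups

`K` is a field of characteristic zero and `G` a group, possibly with torsion, which acts faithfully
by automorphisms on a finitely generated linear group (for example on a free group `F_n`) or on a
finitely generated commutative algebra over a field of characteristic zero, or a group whose
finitely generated subgroups are virtually residually finite `p`-groups for infinitely many primes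
`p`.  Let `z` be any cycle of degree `n + 1 ≥ 1` in the bar complex (coefficients `ℤ`) of the group
of invertible matrices over `K[G]`; every class of `K_{n+1}(K[G])` gives such a `z` by the Hurewicz
map `K_{n+1}(K[G]) → H_{n+1}(GL(K[G]); ℤ)`.  Its Dennis trace is a class in
`HH_{n+1}(K[G]) = ⨁_{[g]} H_{n+1}(C_G(g); K)`; we show that it is killed by all Hochschild cocycles
(with values in a finitely generated subring of `K`, for example `ℤ`) which live on the elements of
infinite order.
-/

set_option autoImplicit false

namespace Pool.Agent.Results.MP_b6f35e_al.HigherTraceAutomorphisms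

open Pool.Agent.W644.HK Pool.Agent.Q91.VR

universe u v w

theorem result (K : Type u) [Field K] [CharZero K] (G : Type v) [Group G] (hG : Covered G)
    (r : Type w) [Fintype r] [DecidableEq r] (n : ℕ)
    (z : (Fin (n + 1) → (Matrix r r (MonoidAlgebra K G))ˣ) →₀ ℤ) (hz : barBoundary z = 0)
    (s : Finset K) (f : (Fin (n + 2) → G) → K) (hs : ∀ g, f g ∈ Algebra.adjoin ℤ (s : Set K))
    (hf : IsHochschildCocycle f)
    (hfin : ∀ (g : Fin (n + 2) → G) (m : ℕ), 0 < m → (List.ofFn g).prod ^ m = 1 → f g = 0) :
    dennis f z = 0 := by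
  refine dennis_char0 z hz ?_ s f hs hf hfin
  intro H hH
  refine (good_infinite (hG.local H hH)).mono ?_
  rintro p ⟨hp, h1, h2⟩
  refine ⟨hp, ?_, ?_⟩
  · intro x hx y hy hxy
    exact congrArg Subtype.val (h1 ⟨x, hx⟩ ⟨y, hy⟩ (Subtype.ext (by simpa using hxy)))
  · intro g hg hinf j hj c hc heq
    have hconj : IsConj (⟨g, hg⟩ : H) (⟨g, hg⟩ ^ p ^ j) :=
      isConj_iff.2 ⟨⟨c, hc⟩, Subtype.ext (by simpa using heq)⟩
    obtain ⟨k, hk⟩ := h2 ⟨g, hg⟩ (fun m hm hc => hinf m hm (by simpa using congrArg Subtype.val hc))
    obtain ⟨x, hx⟩ := Pool.Agent.Q91.PP.divisible_of_conj hj hconj k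
    exact hk x hx

end Pool.Agent.Results.MP_b6f35e_al.HigherTraceAutomorphisms
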