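import Pool.Agent.Q143.KZ.K0R

/-!
Integral kernel formulas for `K_0` and `K_1` of group rings.

`Γ` is an arbitrary group, acting on a set `V` and on a group `N` with endomorphisms `e_S`,
`S ⊆ V`, such that `e_S e_T = e_{S ∩ T}` and `γ e_S = e_{γ S} γ`, and each element of `N` is fixed by
`e_S` for some finite `S`; `N_S` is the image of `e_S` and `Γ_σ` is the group of the elements of `Γ`
which fix the elements of `σ`. There is no condition on the stabilizers of the points of `V`. Let
`C` be a `Γ`-invariant set of finite subsets of `V` closed under subsets, and let `q` be a common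
multiple of the numbers of the permutations of `σ`, `σ ∈ C`, which are restrictions of elements of
`Γ`. `H` is a functor from groups to abelian groups on which inner automorphisms act trivially, for
instance the source `G ↦ H_n^G(E_F G; K_R)` of an assembly map, `R` is any ring, `K(G) = K_0(R[G])`
or `K(G) = K_1(R[G])`, and `α : H ⟶ K` is natural, for instance the assembly map.

If `x ∈ H(N ⋊ Γ)` is a sum of elements from the groups `H(N_σ ⋊ Γ_σ)`, `σ ∈ C`, and `α(x) = 0`, then
`q x` is a sum of elements from the kernels of `α` for the groups `N_σ ⋊ Γ_σ`, `σ ∈ C`.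
-/

namespace Pool.Agent.Results.MP_b6f35e_al.IntegralSupportKernelsK

open CategoryTheory Pool.Agent.Y483 Pool.Agent.Y483.PW Pool.Agent.Y483.PI Pool.Agent.Y477.IW
  Pool.Agent.Q143.KZ Pool.Agent.Q143.KF

theorem result (R : Type) [Ring R] (Γ N V : Type) [Group Γ] [Group N] [MulAction Γ V]
    (s : Sys Γ N V) (C : Set (Finset V)) (hC : IsFam Γ C) (q : ℕ)
    (hq : ∀ σ ∈ C, permNo Γ σ ∣ q) :
    KerFormula (k0gr R) s C q ∧ KerFormula (kgr R) s C q :=
  ⟨kerFormula (hasPTI_k0gr R) s C hC q hq, kerFormula (hasPTI_kgr R) s C hC q hq⟩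

end Pool.Agent.Results.MP_b6f35e_al.IntegralSupportKernelsK
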