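import Pool.Agent.Q143.JN.GFree

/-!
# The Farrell–Jones conjecture for two by two matrices over polynomial rings

`Closed C` (`Pool.Agent.Y462.SS.Base`): the class `C` of groups contains `ℤ` and is closed under
groups that embed, finite products, free products, overgroups of finite index and colimits of directed
systems.  `ExtClosed C` (`Pool.Agent.Q152.WP.Perm`): if `G` maps onto a group `Q` of `C`, and the
kernel and the preimages of all infinite cyclic subgroups of `Q` are in `C`, then `G` is in `C`.  These
properties, and the fact that `C` contains the solvable groups, are known for the class of the groups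
which satisfy the `K`- and `L`-theoretic Farrell–Jones conjecture with coefficients in additive
categories and finite wreath products.

`M2 R` is the group `GL_2(R)` of invertible two by two matrices, `GE R` its subgroup generated by the
elementary and the invertible diagonal matrices, `UT R` the subgroup of the upper triangular matrices
whose inverse is upper triangular, `mp φ` the homomorphism given by a ring homomorphism `φ`.

`IsDeg ι ε deg` (`Pool.Agent.Q143.JN.GE`): `ι : K → R` and `ε : R → K` are ring homomorphisms with
`ε ι = id`, and `deg : R → L` satisfies `deg (a + b) ≤ max (deg a) (deg b)`, `deg (ι k * a) ≤ deg a`,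
and `deg a < deg (r * a)` for nonzero `r`, `a` with `ε r = 0`.
-/

set_option autoImplicit false

namespace Pool.Agent.Results.MP_b6f35e_al.MatricesOverPolynomials

open Pool.Agent.Y462.SS Pool.Agent.Q152.WP Pool.Agent.Q143.JN

/-- Every subgroup of `H ≤ GL_2(R)` whose image under `ε` in `GL_2(K)` is in `C` is in `C`. -/
def Detects (C : ∀ (G : Type) [Group G], Prop) {R K : Type} [Ring R] [Ring K] (ε : R →+* K)
    (H : Subgroup (M2 R)) : Prop :=
  ∀ Γ : Subgroup (M2 R), Γ ≤ H → C (Γ.map (mp ε)) → C Γ

/-- Let `C` be a class of groups with the closure properties `Closed C` and `ExtClosed C`.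

(1) Let `R` be a ring with a degree function, with division ring of constants `K` and augmentation
`ε`. Then `GE_2(R)` is in `C` if and only if `GL_2(K)` and the group of upper triangular matrices over
`R` are in `C`; and if the latter is in `C`, then so is every subgroup of `GE_2(R)` whose image in
`GL_2(K)` is in `C`.

(2) Let `C` contain the solvable groups, and let `K` be a field. A subgroup of `GL_2(K[t])` is
in `C` if the group of its values at some point `x` of `K` is in `C`. The same holds for the
subgroups of `GE_2` of the polynomial ring over `K` in any set of variables, and (with the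
augmentation) for the free associative algebra over `K` on any set. -/
theorem result (C : ∀ (G : Type) [Group G], Prop) (hC : Closed C) (hE : ExtClosed C) :
    (∀ (K R L : Type) [DivisionRing K] [Ring R] [LinearOrder L] (ι : K →+* R) (ε : R →+* K)
      (deg : R → L), IsDeg ι ε deg →
      (C (GE R) ↔ C (M2 K) ∧ C (UT R)) ∧ (C (UT R) → Detects C ε (GE R))) ∧
    ((∀ (G : Type) [Group G], Group.IsSolvable G → C G) → ∀ (K : Type) [Field K],
      (∀ x : K, Detects C (Polynomial.evalRingHom x) ⊤) ∧
      (∀ (σ : Type) (x : σ → K), Detects C (MvPolynomial.eval x) (GE (MvPolynomial σ K))) ∧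
      (∀ X : Type, Detects C (epsF K X) (GE (MonoidAlgebra K (FreeMonoid X))))) := by
  refine ⟨fun K R L _ _ _ ι ε deg h => ⟨ge_iff hC hE h,
    fun hU Γ hΓ hQ => ge_mem hC hE h hU Γ hΓ hQ⟩, fun hS K _ => ⟨fun x Γ _ hQ => ?_,
    fun σ x Γ hΓ hQ => ?_, fun X Γ hΓ hQ => ?_⟩⟩
  · have h := isDeg_poly K x
    exact ge_mem hC hE h (hS _ (ut_sol h)) Γ (by rw [ge_top]; exact le_top) hQ
  · have h := isDeg_mv K σ x
    exact ge_mem hC hE h (hS _ (ut_sol h)) Γ hΓ hQ
  · have h := isDeg_free (K := K) (X := X)
    exact ge_mem hC hE h (hS _ (ut_sol h)) Γ hΓ hQ

end Pool.Agent.Results.MP_b6f35e_al.MatricesOverPolynomials
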