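import Pool.Agent.Q91.FJ.Laws

/-!
# Farrell–Jones groups and kernels which satisfy the laws of a virtually solvable group

`Closed C` (`Pool.Agent.Y462.SS.Base`): the class `C` of groups contains `ℤ` and is closed under
groups that embed, finite products, free products, overgroups of finite index and colimits of directed
systems with arbitrary structure maps.  `ExtClosed C` (`Pool.Agent.Q152.WP.Perm`): if `G` maps onto a
group `Q` of `C`, and the kernel and the preimages of all infinite cyclic subgroups of `Q` are in `C`,
then `G` is in `C`.  `HasSolvable C`: all solvable groups are in `C`.  All these properties are known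
for the class of the groups which satisfy the K- and L-theoretic Farrell–Jones conjecture with
coefficients and finite wreath products.

`SatLaws A K`: every law of the group `A` is a law of the group `K`; by Birkhoff's theorem, `K` is in
the variety generated by `A`.  `VSolv A`: `A` is virtually solvable.

Outline of the proof.  Let `S` be a solvable normal subgroup of finite index in `A`, and let the
kernel `K` of `G → Q` satisfy the laws of `A`.  The verbal subgroup `W` of `K` for the laws of the
finite group `A / S` is normal in `G`.  `K / W` satisfies the laws of a finite group, so it is locally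
finite (a relatively free group of finite rank embeds in a finite power).  `W` is solvable: the
corresponding verbal subgroup of the free group on `K` is mapped into `S` by all homomorphisms to `A`,
so its derived subgroup of order the derived length of `S` consists of laws of `A`.  Now the results
on locally finite kernels (`Pool.Agent.Q152.WP`) and on solvable kernels apply.
-/

set_option autoImplicit false

namespace Pool.Agent.Results.MP_b6f35e_al.VarietyKernels

open Pool.Agent.Y462.SS Pool.Agent.Q152.WP Pool.Agent.Q91.FJ

/-- the factor `M / N` is locally finite or satisfies all laws of some virtually solvable group -/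
def GoodFactor {G : Type} [Group G] (N M : Subgroup G) [N.Normal] : Prop :=
  LocFin (M.map (QuotientGroup.mk' N)) ∨
    ∃ (A : Type) (_ : Group A), VSolv A ∧ SatLaws A (M.map (QuotientGroup.mk' N))

theorem chain {C : ∀ (G : Type) [Group G], Prop} (hC : Closed C) (hE : ExtClosed C)
    (hS : HasSolvable C) {G Q : Type} [Group G] [Group Q] (f : G →* Q)
    (hf : Function.Surjective f) (hQ : C Q) (n : ℕ) (N : ℕ → Subgroup G) [∀ i, (N i).Normal]
    (h0 : N 0 = ⊥) (hn : N n = f.ker) (hle : ∀ i < n, N i ≤ N (i + 1))
    (hgood : ∀ i < n, GoodFactor (N i) (N (i + 1))) : C G := by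
  have key : ∀ k ≤ n, C (G ⧸ N (n - k)) := by
    intro k
    induction k with
    | zero =>
      intro _
      rw [Nat.sub_zero]
      have h1 : (G ⧸ N n) ≃* (G ⧸ f.ker) := QuotientGroup.quotientMulEquivOfEq hn
      exact Pool.Agent.Y812.SS.C_equiv hC
        (h1.trans (QuotientGroup.quotientKerEquivOfSurjective f hf)) hQ
    | succ k ih =>
      intro hk
      have h1 := ih (by omega)
      obtain ⟨i, hi⟩ : ∃ i, i = n - (k + 1) := ⟨_, rfl⟩
      have h2 : n - k = i + 1 := by omega
      rw [h2] at h1
      rw [← hi]
      have hle' := hle i (by omega)
      have hle2 : N i ≤ (QuotientGroup.mk' (N (i + 1))).ker := by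
        rw [QuotientGroup.ker_mk']
        exact hle'
      let g : G ⧸ N i →* G ⧸ N (i + 1) := QuotientGroup.lift (N i) (QuotientGroup.mk' _) hle2
      have hg : Function.Surjective g :=
        QuotientGroup.lift_surjective_of_surjective _ _ (QuotientGroup.mk'_surjective _) _
      have hker : g.ker = (N (i + 1)).map (QuotientGroup.mk' (N i)) := by
        have h3 : g.ker = (QuotientGroup.mk' (N (i + 1))).ker.map (QuotientGroup.mk' (N i)) :=
          QuotientGroup.ker_lift _ _ _
        rw [h3, QuotientGroup.ker_mk']
      rcases hgood i (by omega) with h3 | ⟨A, _, hA, h3⟩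
      · exact lf_kernel hC hE g hg h1 (by rw [hker]; exact h3)
      · exact laws_kernel hC hE hS g hg h1 hA (by rw [hker]; exact h3)
  have h1 := key n le_rfl
  rw [Nat.sub_self] at h1
  refine hC.of_injective _ _ (QuotientGroup.mk' (N 0)) ?_ h1
  rw [← MonoidHom.ker_eq_bot_iff, QuotientGroup.ker_mk', h0]

/-- Let `C` be a class of groups with the closure properties `Closed C` and `ExtClosed C` which
contains all solvable groups.
(1) Let `f : G → Q` be a homomorphism onto a group of `C` whose kernel satisfies all the laws of some
virtually solvable group `A`. Then `G` is in `C`.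
(2) It suffices that the kernel has a finite series of normal subgroups of `G` each factor of which
is locally finite or satisfies the laws of a virtually solvable group (depending on the factor).
(3) It suffices that the kernel is a quotient of a subgroup of an unrestricted power `X → A` of a
virtually solvable group `A`, for any set `X`.
(4) All semidirect products `(X → A) ⋊ Q`, with `A` virtually solvable and `Q` in `C`, are in `C`; for
example the unrestricted permutational wreath product for an action of `Q` on the set `X`. -/
theorem result (C : ∀ (G : Type) [Group G], Prop) (hC : Closed C) (hE : ExtClosed C)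
    (hS : HasSolvable C) :
    (∀ (G Q A : Type) [Group G] [Group Q] [Group A] (f : G →* Q), Function.Surjective f → C Q →
      VSolv A → SatLaws A f.ker → C G) ∧
    (∀ (G Q : Type) [Group G] [Group Q] (f : G →* Q), Function.Surjective f → C Q →
      ∀ (n : ℕ) (N : ℕ → Subgroup G) [∀ i, (N i).Normal], N 0 = ⊥ → N n = f.ker →
        (∀ i < n, N i ≤ N (i + 1)) → (∀ i < n, GoodFactor (N i) (N (i + 1))) → C G) ∧
    (∀ (G Q A X : Type) [Group G] [Group Q] [Group A] (f : G →* Q), Function.Surjective f → C Q →
      VSolv A → ∀ (U : Subgroup (X → A)) (s : U →* f.ker), Function.Surjective s → C G) ∧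
    (∀ (Q A X : Type) [Group Q] [Group A], C Q → VSolv A → ∀ φ : Q →* MulAut (X → A),
      C ((X → A) ⋊[φ] Q)) ∧
    (∀ (Q A X : Type) [Group Q] [Group A] [MulAction Q X], C Q → VSolv A →
      C ((X → A) ⋊[(mulAutArrow : Q →* MulAut (X → A))] Q)) := by
  have h3 : ∀ (G Q A X : Type) [Group G] [Group Q] [Group A] (f : G →* Q),
      Function.Surjective f → C Q → VSolv A → ∀ (U : Subgroup (X → A)) (s : U →* f.ker),
      Function.Surjective s → C G := by
    intro G Q A X _ _ _ f hf hQ hA U s hs
    exact laws_kernel hC hE hS f hf hQ hA ((SatLaws.pi A X).trans
      ((SatLaws.of_injective U.subtype U.subtype_injective).trans (SatLaws.of_surjective s hs)))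
  have h4 : ∀ (Q A X : Type) [Group Q] [Group A], C Q → VSolv A → ∀ φ : Q →* MulAut (X → A),
      C ((X → A) ⋊[φ] Q) := by
    intro Q A X _ _ hQ hA φ
    refine laws_kernel hC hE hS SemidirectProduct.rightHom
      SemidirectProduct.rightHom_surjective hQ hA ((SatLaws.pi A X).trans
        (SatLaws.of_injective
          { toFun := fun x => x.1.left, map_one' := rfl, map_mul' := fun a b => ?_ } ?_))
    · have h1 : a.1.right = 1 := a.2
      change a.1.left * φ a.1.right b.1.left = a.1.left * b.1.left
      rw [h1, map_one]
      rfl
    · intro a b hab
      have h1 : a.1.right = 1 := a.2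
      have h2 : b.1.right = 1 := b.2
      apply Subtype.ext
      exact SemidirectProduct.ext hab (h1.trans h2.symm)
  exact ⟨fun G Q A _ _ _ f hf hQ hA hK => laws_kernel hC hE hS f hf hQ hA hK,
    fun G Q _ _ f hf hQ n N _ h0 hn hle hg => chain hC hE hS f hf hQ n N h0 hn hle hg,
    h3, h4, fun Q A X _ _ _ hQ hA => h4 Q A X hQ hA _⟩

end Pool.Agent.Results.MP_b6f35e_al.VarietyKernels
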